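import Pool.Agent.Y589.VT.Ext

/-!
# Vertices of Mather's beta function at irrational classes on every torus of dimension at least 11

Starting from the Lagrangian of the starting file `IrrationalVertex` (dimension 11) further
coordinates are added, each with the potential `1 - cos (2 π x)`; the closed forms that give the
conical lower bound of `β` extend to the new coordinates.
-/

set_option autoImplicit false

open Filter Topology

namespace Pool.Agent.Results.MP_9da340_an.EveryDimension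

open Pool.Agent.Helper981 Pool.Agent.Y589.VT

/-- `h` in `H_1(T^n, ℝ) = ℝ^n` is rational: a nonzero integer multiple lies in `ℤ^n`. -/
def IsRationalClass {n : ℕ} (h : Fin n → ℝ) : Prop :=
  ∃ m : ℤ, m ≠ 0 ∧ ∃ k : Fin n → ℤ, ∀ i, (m : ℝ) * h i = (k i : ℝ)

/-- `f` is finite at `x` and its tangent cone at `x` contains no line: there is no `v ≠ 0`
with `f'(x; v) + f'(x; -v) = 0`. -/
def HasVertex {n : ℕ} (f : (Fin n → ℝ) → EReal) (x : Fin n → ℝ) : Prop :=
  f x ≠ ⊤ ∧ f x ≠ ⊥ ∧
    ¬ ∃ v : Fin n → ℝ, v ≠ 0 ∧ dirDeriv f x v + dirDeriv f x (-v) = 0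

/-- On the torus `T^n` of EVERY dimension `n ≥ 11` there is a time-periodic Tonelli Lagrangian whose
beta function has a vertex at an irrational homology class `h`; moreover `β` is conical there:
`β(h) = 0` and `β(h') ≥ κ ‖h' - h‖` for all `h'`, for some `κ > 0`. -/
theorem result (n : ℕ) (hn : 11 ≤ n) : ∃ (L : Phase n → ℝ) (Φ : ℝ → Phase n → Phase n),
    IsTonelli L ∧ IsELFlow L Φ ∧
      ∃ h : Fin n → ℝ, ¬ IsRationalClass h ∧ HasVertex (beta L Φ) h ∧ beta L Φ h = 0 ∧
        ∃ κ : ℝ, 0 < κ ∧ ∀ h' : Fin n → ℝ, ((κ * ‖h' - h‖ : ℝ) : EReal) ≤ beta L Φ h' := by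
  obtain ⟨L, Φ, i0, hT, hE, hb, κ, hκ, hl⟩ := main n hn
  refine ⟨L, Φ, hT, hE, Pi.single i0 om, ?_, ⟨?_, ?_, ?_⟩, hb, κ, hκ, hl⟩
  · rintro ⟨m, hm, k, hk⟩
    have h2 := hk i0
    rw [Pi.single_eq_same] at h2
    apply om_irrational
    refine ⟨(k i0 : ℚ) / m, ?_⟩
    push_cast
    rw [← h2]
    have : (m : ℝ) ≠ 0 := by exact_mod_cast hm
    field_simp
  · rw [hb]
    exact EReal.zero_ne_top
  · rw [hb]
    exact EReal.zero_ne_bot
  · rintro ⟨v, hv, h3⟩
    exact no_line hb hκ hl hv h3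

end Pool.Agent.Results.MP_9da340_an.EveryDimension
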